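import Pool.Agent.H66.FA.T

/-!
# Left-invariant Finsler metrics on almost abelian groups: row DEI
-/

set_option autoImplicit false

namespace Pool.Agent.H36.FA

open Matrix

open Pool.Agent.H66.FA Pool.Agent.H63.Fins MeasureTheory Filter Topology

theorem dei_open (n : ℕ) : IsOpen {y : V n | y ≠ 0} := isOpen_ne

theorem dei_hh {n : ℕ} (L : V n → ℝ) (v : V n) (i j : Fin n)
    (h : ContDiffOn ℝ (⊤ : ℕ∞) (fun y => d2 L y v v) {y | y ≠ 0}) :
    ContinuousOn (hh L v i j) {y | y ≠ 0} := by
  have e : ((⊤ : ℕ∞) : WithTop ℕ∞) + 1 ≤ ((⊤ : ℕ∞) : WithTop ℕ∞) := le_of_eq rfl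
  have h1 : ContDiffOn ℝ (⊤ : ℕ∞) (fderiv ℝ fun y => d2 L y v v) {y : V n | y ≠ 0} :=
    h.fderiv_of_isOpen (dei_open n) e
  have h2 : ContDiffOn ℝ (⊤ : ℕ∞) (fun z => fderiv ℝ (fun w => d2 L w v v) z (ee j))
      {y : V n | y ≠ 0} := h1.clm_apply contDiffOn_const
  have h3 : ContDiffOn ℝ (⊤ : ℕ∞)
      (fderiv ℝ fun z => fderiv ℝ (fun w => d2 L w v v) z (ee j)) {y : V n | y ≠ 0} :=
    h2.fderiv_of_isOpen (dei_open n) e
  have h4 : ContDiffOn ℝ (⊤ : ℕ∞) (hh L v i j) {y : V n | y ≠ 0} :=
    h3.clm_apply contDiffOn_const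
  exact h4.continuousOn

theorem pf_DEI (h1 : T_EUL) (h2 : T_REG) (h3 : T_CPT) (h4 : T_SUB) (h5 : T_INT) : T_DEI := by
  intro n L d hn hL hd
  obtain ⟨r1, -, r3, r4, -, r6, r7⟩ := h2 n L hL
  obtain ⟨⟨a, ha, hLa⟩, -⟩ := h3 n L hL
  have hpos : ∀ y : V n, y ≠ 0 → 0 < L y := fun y hy => (h1 n L hL y hy).2.2.2.1
  -- the third derivatives vanish
  have key : ∀ (v y : V n), y ≠ 0 → ∀ i j, fderiv ℝ (fun z => gm L z i j) y v = 0 := by
    intro v y₀ hy₀
    refine (h4 n L d hL hd y₀ v hy₀).2 ?_
    set G : V n → ℝ := fun y => ∑ i, ∑ j, gi L i j y * hh L v i j y with hG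
    have hGc : ContinuousOn G {y | y ≠ 0} := by
      refine continuousOn_finsetSum _ fun i _ => continuousOn_finsetSum _ fun j _ => ?_
      exact (r6 i j).continuousOn.mul (dei_hh L v i j (r4 v v))
    have hG0 : ∀ y, y ≠ 0 → 0 ≤ G y := fun y hy => (h4 n L d hL hd y v hy).1
    have hc : 0 < L y₀ := hpos y₀ hy₀
    let b : ContDiffBump (L y₀) := ⟨L y₀ / 4, L y₀ / 2, by linarith, by linarith⟩
    have hbs : tsupport (b : ℝ → ℝ) = Metric.closedBall (L y₀) (L y₀ / 2) := b.tsupport_eq
    have hb0 : ∀ t : ℝ, t < L y₀ / 2 → b t = 0 := by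
      intro t ht
      refine b.zero_of_le_dist ?_
      rw [Real.dist_eq]
      have : L y₀ / 2 ≤ |t - L y₀| := by
        rw [abs_sub_comm]
        exact le_trans (by linarith) (le_abs_self _)
      exact this
    have hb1 : ∀ t : ℝ, 3 / 2 * L y₀ ≤ t → b t = 0 := by
      intro t ht
      refine b.zero_of_le_dist ?_
      rw [Real.dist_eq]
      have : L y₀ / 2 ≤ |t - L y₀| := le_trans (by linarith) (le_abs_self _)
      exact this
    have hint := h5 n L d hL hd v b b.contDiff b.hasCompactSupport (by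
      rw [hbs]
      intro t ht
      rw [Metric.mem_closedBall, Real.dist_eq] at ht
      have := (abs_le.mp ht).1
      simp only [Set.mem_Ioi]
      linarith)
    set f : V n → ℝ := fun y => b (L y) * G y with hf
    have hfc : Continuous f := by
      rw [continuous_iff_continuousAt]
      intro y
      by_cases hy : y = 0
      · subst hy
        have hev : f =ᶠ[𝓝 (0 : V n)] fun _ => (0 : ℝ) := by
          have hlt : ∀ᶠ y in 𝓝 (0 : V n), L y < L y₀ / 2 := by
            have : L 0 < L y₀ / 2 := by rw [hL.zero]; linarith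
            exact (r1.continuousAt).eventually_lt continuousAt_const this
          filter_upwards [hlt] with y hy
          simp only [hf, hb0 _ hy, zero_mul]
        exact (continuousAt_congr hev).mpr continuousAt_const
      · have hGy : ContinuousAt G y := hGc.continuousAt ((dei_open n).mem_nhds hy)
        exact ((b.continuous.comp r1).continuousAt).mul hGy
    have hfs : HasCompactSupport f := by
      refine HasCompactSupport.intro (K := Metric.closedBall (0 : V n)
        (1 + 3 / 2 * L y₀ / a)) (isCompact_closedBall _ _) ?_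
      intro y hy
      rw [Metric.mem_closedBall, dist_zero_right, not_le] at hy
      have hq : 0 < 3 / 2 * L y₀ / a := by positivity
      have h6 : 3 / 2 * L y₀ ≤ a * ‖y‖ ^ 2 := by
        have h7 : 3 / 2 * L y₀ / a ≤ ‖y‖ ^ 2 := by nlinarith
        rw [div_le_iff₀ ha] at h7
        linarith
      simp only [hf, hb1 _ (le_trans h6 (hLa y)), zero_mul]
    have hfn : 0 ≤ f := by
      intro y
      by_cases hy : y = 0
      · subst hy
        have : b (L 0) = 0 := hb0 _ (by rw [hL.zero]; linarith)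
        simp only [hf, this, zero_mul, Pi.zero_apply, le_refl]
      · exact mul_nonneg b.nonneg (hG0 y hy)
    by_contra hne
    have hfy : f y₀ ≠ 0 := by
      have hb2 : 0 < b (L y₀) := b.pos_of_mem_ball (Metric.mem_ball_self b.rOut_pos)
      exact mul_ne_zero hb2.ne' hne
    have hp : 0 < ∫ y, f y :=
      hfc.integral_pos_of_hasCompactSupport_nonneg_nonzero hfs hfn hfy
    rw [hf] at hp
    exact hp.ne' hint
  -- a base point
  have hn0 : 0 < n := by omega
  have he : (fun _ => 1 : V n) ≠ 0 := by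
    intro h
    have := congrFun h ⟨0, hn0⟩
    simp at this
  have hconn : IsPreconnected {y : V n | y ≠ 0} := by
    have h7 : 1 < Module.rank ℝ (V n) := by
      rw [rank_fin_fun]
      exact_mod_cast hn
    have h8 := (isConnected_compl_singleton_of_one_lt_rank h7 (0 : V n)).isPreconnected
    exact h8
  have hconst : ∀ (i j : Fin n) (y : V n), y ≠ 0 → gm L y i j = gm L (fun _ => 1) i j := by
    intro i j y hy
    have h9 : ContDiffOn ℝ (⊤ : ℕ∞) (fun z => gm L z i j) {y : V n | y ≠ 0} :=
      r4 (ee i) (ee j)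
    have h9' : DifferentiableOn ℝ (fun z => gm L z i j) {y : V n | y ≠ 0} :=
      h9.differentiableOn (by simp)
    have h11 : {y : V n | y ≠ 0}.EqOn (fderiv ℝ fun z => gm L z i j) 0 := by
      intro z hz
      refine ContinuousLinearMap.ext fun v => ?_
      exact key v z hz i j
    exact (dei_open n).is_const_of_fderiv_eq_zero hconn h9' h11 hy he
  refine ⟨gm L (fun _ => 1), fun y => ?_⟩
  by_cases hy : y = 0
  · subst hy
    rw [hL.zero, zero_dotProduct, zero_div]
  · have hgm : gm L y = gm L (fun _ => 1) := by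
      ext i j
      exact hconst i j y hy
    obtain ⟨e1, e2, -, -, -⟩ := h1 n L hL y hy
    have h10 := (r7 y hy).2.2.2.2 y y
    rw [e2 y, e1, hgm] at h10
    linarith

end Pool.Agent.H36.FA
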