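import Pool.Agent.H66.FA.T

/-!
# Left-invariant Finsler metrics on almost abelian groups: row RA
-/

set_option autoImplicit false

namespace Pool.Agent.H36.FA

open Matrix

open Pool.Agent.H66.FA Pool.Agent.H63.Fins MeasureTheory Filter Topology

theorem ra_pdy {n : ℕ} (l : Fin n) (H : V n → V n → ℝ) :
    pdy l (fun x y => 2 * H x y) = fun x y => 2 * pdy l H x y := by
  funext x y
  unfold pdy
  exact deriv_const_mul_field 2

theorem ra_pdx {n : ℕ} (l : Fin n) (H : V n → V n → ℝ) (x y : V n) :
    pdx l (fun x y => 2 * H x y) x y = 2 * pdx l H x y := by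
  unfold pdx
  exact deriv_const_mul_field 2

theorem ra_zero {m : ℕ} (k : Fin (m + 1)) (hk : k ≠ 0) (g : ℝ → V (m + 1) → ℝ)
    (x y : V (m + 1)) : pdx k (fun x y => g (x 0) y) x y = 0 := by
  unfold pdx
  have h : (fun t => g ((Function.update x k t) 0) y) = fun _ => g (x 0) y := by
    funext t
    rw [Function.update_of_ne (Ne.symm hk)]
  simp only [h, deriv_const]

theorem pf_RA : T_RA := by
  intro m F Λ hR x y i hy
  have hF : (fun x y => F x y ^ 2) = fun x y => 2 * Λ (x 0) y := by
    funext x y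
    exact hR.eq x y
  have h1 : ∀ l : Fin (m + 1), pdy l (fun x y => 2 * Λ (x 0) y) =
      fun x y => 2 * pdy l (fun x y => Λ (x 0) y) x y := fun l => ra_pdy l _
  have h2 : ∀ l : Fin (m + 1), (∑ k, y k * pdx k (pdy l (fun x y => 2 * Λ (x 0) y)) x y) =
      2 * (y 0 * pdx 0 (pdy l fun x y => Λ (x 0) y) x y) := by
    intro l
    rw [h1 l]
    rw [Finset.sum_eq_single (0 : Fin (m + 1))]
    · rw [ra_pdx]
      ring
    · intro k _ hk
      rw [ra_pdx]
      have h3 : pdx k (pdy l fun x y => Λ (x 0) y) x y = 0 :=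
        ra_zero k hk (fun s y => deriv (fun t => Λ s (Function.update y l t)) (y l)) x y
      have h4 : pdx k (fun x y => pdy l (fun x y => Λ (x 0) y) x y) x y = 0 := h3
      rw [h4]
      ring
    · intro h
      exact absurd (Finset.mem_univ _) h
  have h5 : ∀ l : Fin (m + 1), pdx l (fun x y => 2 * Λ (x 0) y) x y =
      2 * (if l = 0 then pdx 0 (fun x y => Λ (x 0) y) x y else 0) := by
    intro l
    rw [ra_pdx l (fun x y => Λ (x 0) y) x y]
    by_cases hl : l = 0
    · subst hl
      rw [if_pos rfl]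
    · rw [if_neg hl, ra_zero l hl Λ x y]
  unfold spray
  rw [hF, Finset.mul_sum, Finset.mul_sum]
  refine Finset.sum_congr rfl fun l _ => ?_
  rw [h2 l, h5 l]
  ring

end Pool.Agent.H36.FA
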