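import Pool.Agent.H66.FA.T

/-!
# Left-invariant Finsler metrics on almost abelian groups: row SPR
-/

set_option autoImplicit false

namespace Pool.Agent.H36.FA

open Matrix

open Pool.Agent.H66.FA Pool.Agent.H63.Fins MeasureTheory Filter Topology

theorem spr_sum {m : ℕ} (T : V (m + 1) →L[ℝ] ℝ) (u : V (m + 1)) :
    ∑ l, u l * T (ee l) = T u := by
  have hu : u = ∑ l, u l • ee l := by
    funext j
    simp [ee, Finset.sum_apply, Pi.single_apply]
  conv_rhs => rw [hu]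
  rw [map_sum]
  exact Finset.sum_congr rfl fun l _ => by rw [map_smul, smul_eq_mul]

theorem pf_SPR (h1 : T_PDF) (h2 : T_RA) (h3 : T_ML) (h4 : T_EUL) (h5 : T_REG) (h6 : T_ISR) :
    T_SPR := by
  intro m B E F hE hF hx y u hy
  set L : V (m + 1) → ℝ := fun y => F 0 y ^ 2 / 2 with hLdef
  obtain ⟨hL, hfund⟩ := h3 (m + 1) F hF 0
  have hfy : fund F 0 y = gm L y := hfund y hy
  have hR := (h6 m B E F hE hF hx).1
  obtain ⟨-, -, -, -, -, -, r7⟩ := h5 (m + 1) L hL
  obtain ⟨e1, e2, e3, -, -⟩ := h4 (m + 1) L hL y hy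
  -- the curve
  have hcurve : ∀ w : V (m + 1), HasDerivAt (fun t : ℝ => E (-t) w) (-(B w)) 0 := by
    intro w
    have h := (hE.der (-(0 : ℝ)) w).scomp (0 : ℝ) (hasDerivAt_neg (0 : ℝ))
    rw [neg_zero, hE.zero, neg_one_smul] at h
    exact h
  have hne : ∀ t : ℝ, E (-t) y ≠ 0 := by
    intro t h0
    have h := hE.add t (-t) y
    rw [add_neg_cancel, hE.zero, h0, map_zero] at h
    exact hy h
  have hE0 : ∀ w : V (m + 1), E (-(0 : ℝ)) w = w := by
    intro w
    rw [neg_zero, hE.zero]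
  have hsm : ContDiffOn ℝ (⊤ : ℕ∞) (fderiv ℝ L) {y : V (m + 1) | y ≠ 0} := by
    have e : ((⊤ : ℕ∞) : WithTop ℕ∞) + 1 ≤ ((⊤ : ℕ∞) : WithTop ℕ∞) := le_of_eq rfl
    exact hL.smooth.fderiv_of_isOpen isOpen_ne e
  have hdd : HasFDerivAt (fderiv ℝ L) (fderiv ℝ (fderiv ℝ L) y) y := by
    have h := (hsm.differentiableOn (by simp)).differentiableAt (isOpen_ne.mem_nhds hy)
    exact h.hasFDerivAt
  -- Q
  have hQ : pdx 0 (fun x y => F 0 (E (-x 0) y) ^ 2 / 2) 0 y = -(d1 L y (B y)) := by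
    have h : HasDerivAt (fun t : ℝ => L (E (-t) y)) (fderiv ℝ L y (-(B y))) 0 := by
      have h7 : HasFDerivAt L (fderiv ℝ L y) (E (-(0 : ℝ)) y) := by
        rw [hE0]
        exact (r7 y hy).1
      exact h7.comp_hasDerivAt (0 : ℝ) (hcurve y)
    have h8 := h.deriv
    rw [map_neg] at h8
    unfold pdx
    have h9 : (fun t : ℝ => F 0 (E (-(Function.update (0 : V (m + 1)) 0 t) 0) y) ^ 2 / 2) =
        fun t : ℝ => L (E (-t) y) := by
      funext t
      rw [Function.update_self]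
    rw [h9]
    exact h8
  -- P
  have hP : ∀ l, pdx 0 (pdy l fun x y => F 0 (E (-x 0) y) ^ 2 / 2) 0 y =
      -(d2 L y (B y) (ee l) + d1 L y (B (ee l))) := by
    intro l
    have hin : ∀ t : ℝ, pdy l (fun x y => F 0 (E (-x 0) y) ^ 2 / 2)
        (Function.update (0 : V (m + 1)) 0 t) y = fderiv ℝ L (E (-t) y) (E (-t) (ee l)) := by
      intro t
      have h7 : HasFDerivAt L (fderiv ℝ L (E (-t) y)) (E (-t) y) := (r7 _ (hne t)).1
      have h8 : HasFDerivAt (fun y => L (E (-t) y)) ((fderiv ℝ L (E (-t) y)).comp (E (-t))) y :=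
        h7.comp y (E (-t)).hasFDerivAt
      have h9 : (fun y => F 0 (E (-(Function.update (0 : V (m + 1)) 0 t) 0) y) ^ 2 / 2) =
          fun y => L (E (-t) y) := by
        funext z
        rw [Function.update_self]
      have h10 := (h1 (m + 1) l (fun x y => F 0 (E (-x 0) y) ^ 2 / 2)
        (Function.update (0 : V (m + 1)) 0 t) y).2 (by
          show DifferentiableAt ℝ (fun y => F 0
            (E (-(Function.update (0 : V (m + 1)) 0 t) 0) y) ^ 2 / 2) y
          rw [h9]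
          exact h8.differentiableAt)
      rw [h10]
      show fderiv ℝ (fun y => F 0 (E (-(Function.update (0 : V (m + 1)) 0 t) 0) y) ^ 2 / 2) y
        (ee l) = _
      rw [h9, h8.fderiv]
      rfl
    unfold pdx
    have h9 : (fun t : ℝ => pdy l (fun x y => F 0 (E (-x 0) y) ^ 2 / 2)
        (Function.update (0 : V (m + 1)) 0 t) y) =
        fun t : ℝ => fderiv ℝ L (E (-t) y) (E (-t) (ee l)) := funext hin
    rw [h9]
    have h7 : HasFDerivAt (fderiv ℝ L) (fderiv ℝ (fderiv ℝ L) y) (E (-(0 : ℝ)) y) := by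
      rw [hE0]
      exact hdd
    have h11 : HasDerivAt (fun t : ℝ => fderiv ℝ L (E (-t) y))
        (fderiv ℝ (fderiv ℝ L) y (-(B y))) 0 := h7.comp_hasDerivAt (0 : ℝ) (hcurve y)
    have h12 := (h11.clm_apply (hcurve (ee l))).deriv
    rw [hE0, hE0, map_neg, map_neg] at h12
    show deriv (fun t : ℝ => fderiv ℝ L (E (-t) y) (E (-t) (ee l))) 0 = _
    rw [h12]
    show -(fderiv ℝ (fderiv ℝ L) y (B y)) (ee l) + -(fderiv ℝ L y (B (ee l))) =
      -(fderiv ℝ (fderiv ℝ L) y (B y) (ee l) + fderiv ℝ L y (B (ee l)))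
    rw [neg_add]
  -- the spray
  set r : V (m + 1) := fun l => y 0 * -(d2 L y (B y) (ee l) + d1 L y (B (ee l))) -
    (if l = 0 then -(d1 L y (B y)) else 0) with hr
  have hspray : (fun i => 2 * spray F 0 y i) = (gm L y)⁻¹ *ᵥ r := by
    funext i
    rw [h2 m F _ hR 0 y i hy, hfy]
    simp only [mulVec, dotProduct, hr]
    rw [← mul_assoc, show (2 : ℝ) * (1 / 2) = 1 by norm_num, one_mul]
    refine Finset.sum_congr rfl fun l _ => ?_
    rw [hP l, hQ]
  have hdet : IsUnit (gm L y).det := by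
    have := (r7 y hy).2.2.2.1
    exact isUnit_iff_ne_zero.mpr this.ne'
  rw [e3, (r7 y hy).2.2.2.2, hspray, mulVec_mulVec, mul_nonsing_inv _ hdet, one_mulVec]
  have hT := spr_sum (fderiv ℝ (fderiv ℝ L) y (B y) + (fderiv ℝ L y).comp B) u
  have hT2 : ∀ w, (fderiv ℝ (fderiv ℝ L) y (B y) + (fderiv ℝ L y).comp B) w =
      d2 L y (B y) w + d1 L y (B w) := fun w => rfl
  simp only [hT2] at hT
  rw [e3 u (B y), ← hT]
  simp only [dotProduct, hr, mul_sub, Finset.sum_sub_distrib, mul_ite, mul_zero,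
    Finset.sum_ite_eq', Finset.mem_univ, if_true]
  rw [Finset.mul_sum, ← Finset.sum_neg_distrib]
  have h13 : (∑ l, u l * (y 0 * -(d2 L y (B y) (ee l) + d1 L y (B (ee l))))) =
      ∑ l, -(y 0 * (u l * (d2 L y (B y) (ee l) + d1 L y (B (ee l))))) :=
    Finset.sum_congr rfl fun l _ => by ring
  rw [h13]
  ring

end Pool.Agent.H36.FA
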